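import Pool.Agent.H3.SGG.Conv

/-!
A uniform growth gap for the stable subgroups of a right-angled Artin group whose defining graph is
not a join.
-/

set_option autoImplicit false

namespace Pool.Agent.Results.MP_719818_al.StableGrowthGap

open Pool.Agent.H3.SGG

/-- Let `A` be the right-angled Artin group of two disjoint 4-cycles and `verts` its standard
generators, the 8 vertices. The graph is not a join, `A` is Morse local-to-global, it is not
virtually cyclic and it contains a Morse element. Every stable subgroup of `A` has growth rate at
most `62 / 5 = 12.4`, while `A` has growth rate at least `249 / 20 = 12.45`. So no sequence of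
infinite index stable subgroups has growth rates converging to the growth rate of `A`. -/
theorem result :
    (verts.Finite ∧ Subgroup.closure verts = ⊤) ∧
    (¬ ∃ B : Set (Bool × Bool × Bool), B.Nonempty ∧ Bᶜ.Nonempty ∧ ∀ u ∈ B, ∀ v ∈ Bᶜ, Adj u v) ∧
    IsMorseLocalToGlobal verts ∧
    ¬ IsVirtuallyCyclic A ∧
    (∃ g : A, IsMorseElement verts g) ∧
    (∀ H : Subgroup A, IsStable verts H → growthRate verts H ≤ ENNReal.ofReal (62 / 5)) ∧
    ENNReal.ofReal (249 / 20) ≤ growthRate verts Set.univ ∧
    ¬ ∃ H : ℕ → Subgroup A, (∀ i, IsStable verts (H i) ∧ (H i).index = 0) ∧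
      Filter.Tendsto (fun i => growthRate verts (H i)) Filter.atTop
        (nhds (growthRate verts Set.univ)) :=
  main

end Pool.Agent.Results.MP_719818_al.StableGrowthGap
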